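import Pool.Agent.U409.OA.Stm3

/-!
Project OA (helper409), package YB (helper612): the Yang-Baxter and reflection equations.
-/

set_option autoImplicit false
set_option linter.unusedSimpArgs false

namespace Pool.Agent.U612.OA

open Pool.Agent.U409.OA

variable {R : Type} [CommRing R]

lemma zpows {z : R} (hz : z ^ 2 = z - 1) :
    z ^ 3 = -1 ∧ z ^ 4 = -z ∧ z ^ 5 = 1 - z ∧ z ^ 6 = 1 ∧ z ^ 7 = z ∧ z ^ 8 = z - 1 := by
  have h3 : z ^ 3 = -1 := by linear_combination (z + 1) * hz
  have h4 : z ^ 4 = -z := by linear_combination z * h3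
  have h5 : z ^ 5 = 1 - z := by linear_combination z ^ 2 * h3 - hz
  have h6 : z ^ 6 = 1 := by linear_combination z ^ 3 * h3 - h3
  have h7 : z ^ 7 = z := by linear_combination z * h6
  have h8 : z ^ 8 = z - 1 := by linear_combination z ^ 2 * h6 + hz
  exact ⟨h3, h4, h5, h6, h7, h8⟩

theorem ybcol (z : R) (hz : z ^ 2 = z - 1) :
    YBcol (L := R) (fun a b => cw z (a * b)) (sw z) := by
  obtain ⟨h3, h4, h5, h6, h7, h8⟩ := zpows hz
  intro w a b r c1 c2 r' c1' c2'
  cases r <;> cases c1 <;> cases c2 <;> cases r' <;> cases c1' <;> cases c2' <;>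
    simp only [Fintype.sum_bool, cw, sw, mul_zero, zero_mul, add_zero, zero_add] <;>
    first
    | rfl
    | ring1
    | (ring_nf; simp only [hz, h3, h4, h5, h6, h7, h8]; ring1)

theorem ybrow (z : R) (hz : z ^ 2 = z - 1) :
    YBrow (L := R) (fun a b => cw z (a * b)) (sw z) := by
  obtain ⟨h3, h4, h5, h6, h7, h8⟩ := zpows hz
  intro a b j t1 t2 c t1' t2' c'
  cases t1 <;> cases t2 <;> cases c <;> cases t1' <;> cases t2' <;> cases c' <;>
    simp only [Fintype.sum_bool, cw, sw, mul_zero, zero_mul, add_zero, zero_add] <;>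
    first
    | rfl
    | ring1
    | (ring_nf; simp only [hz, h3, h4, h5, h6, h7, h8]; ring1)

theorem re_ke (z e : R) (hz : z ^ 2 = z - 1) :
    RE (L := R) (fun a b => cw z (a * b)) (ke z e) (sw z) := by
  obtain ⟨h3, h4, h5, h6, h7, h8⟩ := zpows hz
  intro a b s1 s2 t1 t2
  cases s1 <;> cases s2 <;> cases t1 <;> cases t2 <;>
    simp only [Fintype.sum_bool, cw, sw, ke, if_true, if_false, Bool.false_eq_true, reduceCtorEq,
      mul_zero, zero_mul, add_zero, zero_add] <;>
    first
    | rfl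
    | ring1
    | (ring_nf; simp only [hz, h3, h4, h5, h6, h7, h8]; ring1)

theorem re_k0 (z : R) (hz : z ^ 2 = z - 1) :
    RE (L := R) (fun a b => cw z (a * b)) (fun _ => k0) (sw z) := by
  obtain ⟨h3, h4, h5, h6, h7, h8⟩ := zpows hz
  intro a b s1 s2 t1 t2
  cases s1 <;> cases s2 <;> cases t1 <;> cases t2 <;>
    simp only [Fintype.sum_bool, cw, sw, k0, if_true, if_false, Bool.false_eq_true, reduceCtorEq,
      mul_zero, zero_mul, add_zero, zero_add, one_mul, mul_one] <;>
    first
    | rfl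
    | ring1
    | (ring_nf; simp only [hz, h3, h4, h5, h6, h7, h8]; ring1)

theorem eigin (z : R) : EigIn (L := R) (sw z) (fun a b => z * a + z ^ 2 * b) := by
  intro a b d1 d2
  cases d1 <;> cases d2 <;> simp [sw]

theorem eigout (z : R) : EigOut (L := R) (sw z) (fun a b => z * a + z ^ 2 * b) := by
  intro a b d1 d2
  cases d1 <;> cases d2 <;> simp [sw]

theorem t_YB : S_YB := by
  intro R _ z e hz
  exact ⟨ybcol z hz, ybrow z hz, re_ke z e hz, re_k0 z hz, eigin z, eigout z⟩

end Pool.Agent.U612.OA
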